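import Pool.Agent.Lib.MP_b5021c_nt.SF.H27.Bas

/-!
# Board b5, chapter SF, row SF_BIG: assembly with a big factor
-/

namespace Pool.Agent.B5.SFH27

open scoped LaurentPolynomial
open Polynomial Pool.Agent.B5
open Pool.Agent.MP_b5021c_nt (nz)

set_option linter.unusedSectionVars false

section

variable {P L : Type} [Fintype P] [DecidableEq P] [AddCommGroup L] [Module.Free ℤ L]
  [Module.Finite ℤ L] {phi : L →+ (P → ℤ)} {D : AO ℤ L} {S : L} {i0 : P} {eta : (RO ℤ)ˣ}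
  {h : co phi i0 S = 1} {c : RO ℤ} {n : ℕ} {G : Fin n → AO ℤ (Ker (co phi i0))} {θ θ' : ℝ}
  {m : ℤ} {q f : ℤ[X]}

/-- Mass one: the exact bound. -/
theorem mass_one (hTa : Ta3S) (hUm : Um3S) (hSt : St3S) (hSw : Sw3S) (hTr : Nr.TrezS) (hE2 : E2S)
    (fd : FD phi D S i0 eta h c n G) (hθ : 2 ≤ θ) (hP : ClassP θ (D.coeff 0))
    (hq : D.coeff 0 = LaurentPolynomial.T m * toLaurent q)
    (hf : (eta : RO ℤ) * D.coeff S = LaurentPolynomial.T m * toLaurent (X * f)) (ld : LDz q f)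
    (hf1 : |f.coeff 0| ≤ 1) (hMass : Mass 1 q f) {l : Fin n} {b : Ker (co phi i0)} {j : P}
    {e : (RO ℤ)ˣ} {hj : co (phK phi (co phi i0)) j b = 1}
    {Q F : AO ℤ (Ker (co (phK phi (co phi i0)) j))}
    (hQ : QC phi D S i0 eta h c n G l b j e hj Q) (hQF : Q = cst (c * (G l).coeff 0) * F)
    (hF : NnT F) (hF1 : F.coeff 0 = 1) : ExB (Module.finrank ℤ L) θ := by
  obtain ⟨d0, -, -, -, -, -⟩ := hE2 ℤ P L phi D fd.cc.dd fd.cc.two
  have F1 : F = 1 := hTa ℤ _ F hF hF1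
  have Qg : Q = cst (c * (G l).coeff 0) := by rw [hQF, F1, mul_one]
  have hS0 : (eta : RO ℤ) * D.coeff S ≠ 0 := mul_ne_zero eta.ne_zero fd.cc.ray.1
  have hXf : X * f ≠ 0 := H96.T_mul_ne (m := m) (by rw [← hf]; exact hS0)
  have hf0 : f ≠ 0 := right_ne_zero_of_mul hXf
  have hfm : f.map (Coef.emb : ℤ →+* ℂ) ≠ 0 := by
    rw [Ne, Polynomial.map_eq_zero_iff emb_inj]
    exact hf0
  have hvm : cpz (q + X * f) = cpz q + X * f.map (Coef.emb : ℤ →+* ℂ) := by
    rw [cpz, Polynomial.map_add, Polynomial.map_mul, Polynomial.map_X]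
    rfl
  have zf : ZF (f.map (Coef.emb : ℤ →+* ℂ)) := by
    apply hUm (cpz q) (f.map (Coef.emb : ℤ →+* ℂ)) ld.nzq ld.qc hfm
    intro z hz
    obtain ⟨w, rfl⟩ := H93.exists_circle hz
    have h1 := hMass w
    rw [map_one, Complex.one_re, one_mul] at h1
    have h2 : (cpz (q - X * f)).eval (w : ℂ) =
        2 * (cpz q).eval (w : ℂ) - (cpz (q + X * f)).eval (w : ℂ) := by
      simp only [cpz, Polynomial.map_sub, Polynomial.map_add, eval_sub, eval_add]
      ring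
    have h4 : ∀ w : ℂ, (2 * w).re = 2 * w.re := by
      intro w
      rw [show (2 : ℂ) * w = ((2 : ℝ) : ℂ) * w by norm_num, Complex.re_ofReal_mul]
    rw [h2, sub_mul, Complex.sub_re, mul_assoc, h4, Complex.mul_conj, Complex.normSq_eq_norm_sq,
      Complex.ofReal_re] at h1
    rw [← hvm]
    linarith
  have hfc : |f.coeff 0| = 1 := by
    have h1 := zf 0 (by simp)
    rw [← coeff_zero_eq_eval_zero, coeff_map] at h1
    have h2 : f.coeff 0 ≠ 0 := by
      intro h0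
      apply h1
      rw [h0, map_zero]
    have h3 := Int.one_le_abs h2
    omega
  have hne : D.coeff 0 + 2 * ((eta : RO ℤ) * D.coeff S) ≠ 0 := by
    have h1 : D.coeff 0 + 2 * ((eta : RO ℤ) * D.coeff S) =
        LaurentPolynomial.T m * toLaurent (q + X * f + X * f) := by
      rw [hq, hf, map_add, map_add]
      ring
    rw [h1]
    apply H96.T_mul_ne'
    intro h2
    have h3 := congrArg (fun p : ℤ[X] => p.coeff 0) h2
    simp only [coeff_add, mul_coeff_zero, coeff_X_zero, zero_mul, add_zero, coeff_zero] at h3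
    exact ne_of_abs_one ld.q0 h3
  obtain ⟨U, H, pf, hU0, hH0⟩ := hSt ℤ P L phi D S i0 eta h c n G l b j e hj Q hQ Qg hne
  obtain ⟨hDD, hRb, -, hc0, hcb, -⟩ := hSw ℤ P L phi D S (b : L) eta e U H fd.cc.dd pf d0
  have typ : TypA 1 ((swp S (b : L) eta e U H).coeff 0)
      ((swp S (b : L) eta e U H).coeff 0 + (e : RO ℤ) * (swp S (b : L) eta e U H).coeff (b : L)) := by
    refine ⟨m, q, -f, by rw [hc0, hq], ?_, norm_emb_one ld.q0, ?_, ?_⟩
    · rw [hcb, hc0, hU0]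
      have h1 : (toLaurent (X * f) : RO ℤ) = LaurentPolynomial.T 1 * toLaurent f := by
        rw [map_mul, toLaurent_X]
      have h2 : D.coeff 0 + -(D.coeff 0 + (eta : RO ℤ) * D.coeff S) =
          -((eta : RO ℤ) * D.coeff S) := by ring
      rw [h2, hf, h1, LaurentPolynomial.T_add, map_neg]
      ring
    · rw [coeff_neg]
      exact norm_emb_one (by rw [abs_neg]; exact hfc)
    · intro z hz
      rw [Polynomial.map_neg, eval_neg]
      exact neg_ne_zero.mpr (zf z hz)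
  exact hTr P L phi _ (b : L) e θ hDD fd.cc.two hRb hθ (by rw [hc0]; exact hP) typ

/-- A Fejer kernel excludes a mutual ray. -/
theorem no_mutual (hNz : NdzS)
    (hq : D.coeff 0 = LaurentPolynomial.T m * toLaurent q)
    (hf : (eta : RO ℤ) * D.coeff S = LaurentPolynomial.T m * toLaurent (X * f))
    {T T' : ℝ} {s W : ℂ[X]} (c1 : C1D q f T' s W) (hT : 1 < |T|)
    (hroot : (cpz q).eval ((T⁻¹ : ℝ) : ℂ) = 0) (hTT : |T'| < |T|) {sg : ℤ} {k : ℕ}
    (hsg : sg = 1 ∨ sg = -1) (hk : 2 ≤ k) (hsT : 0 < sg * T)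
    {l : Fin n} {b : Ker (co phi i0)} {j : P}
    {e : (RO ℤ)ˣ} {hj : co (phK phi (co phi i0)) j b = 1}
    {Q : AO ℤ (Ker (co (phK phi (co phi i0)) j))}
    (hQ : QC phi D S i0 eta h c n G l b j e hj Q)
    (hQF : Q = cst (c * (G l).coeff 0 * fej sg k)) (hk0 : (fej sg k).coeff 0 = (k : ℤ)) :
    ¬ ∃ (S1 : L) (e1 : (RO ℤ)ˣ), Mut D S S1 eta e1 := by
  rintro ⟨S1, e1, hmut⟩
  have hT0 : T ≠ 0 := by
    rintro rfl
    rw [abs_zero] at hT
    linarith
  have hTn : ‖((T⁻¹ : ℝ) : ℂ)‖ < 1 := by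
    rw [Complex.norm_real, Real.norm_eq_abs, abs_inv]
    exact inv_lt_one_of_one_lt₀ hT
  have hu0 : ((T⁻¹ : ℝ) : ℂ) ≠ 0 := by
    rw [Complex.ofReal_ne_zero]
    exact inv_ne_zero hT0
  have hsa : 0 < (sg : ℝ) * T⁻¹ := by
    have h1 : (sg : ℝ) * T⁻¹ = (sg * T) * (T⁻¹) ^ 2 := by
      field_simp
    rw [h1]
    exact mul_pos hsT (by positivity)
  obtain ⟨x, hx, hxe⟩ := fej_pos hsg hsa (by omega : 1 ≤ k) (Units.mk0 _ hu0) rfl
  have hv : ∀ y : ℂ, (∃ r : ℝ, 0 < r ∧ y = (r : ℂ)) →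
      y * (((Units.mk0 _ hu0 : ℂˣ) : ℂ) ^ m * (cpz (q + X * f)).eval ((T⁻¹ : ℝ) : ℂ)) ≠ 0 := by
    rintro y ⟨r, hr, rfl⟩ h0
    have h1 : (cpz (q + X * f)).eval ((T⁻¹ : ℝ) : ℂ) = 0 := by
      rcases mul_eq_zero.mp h0 with h2 | h2
      · exact absurd (Complex.ofReal_eq_zero.mp h2) hr.ne'
      · rcases mul_eq_zero.mp h2 with h3 | h3
        · exact absurd h3 (zpow_ne_zero _ (Units.ne_zero _))
        · exact h3
    rw [c1.v, eval_mul] at h1
    have h2 := (mul_eq_zero.mp h1).resolve_right (c1.zf _ hTn)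
    rw [eval_sub, eval_one, eval_mul, eval_C, eval_X, ← Complex.ofReal_mul, sub_eq_zero] at h2
    have h3 : T' * T⁻¹ = 1 := by
      have h4 := h2.symm
      exact_mod_cast h4
    have h5 : T' = T := by
      field_simp at h3
      exact h3
    rw [h5] at hTT
    exact lt_irrefl _ hTT
  have hD0 : evU (Units.mk0 _ hu0) (D.coeff 0) = 0 := by
    rw [hq, map_mul, evU_toLaurent]
    change _ * (cpz q).eval ((T⁻¹ : ℝ) : ℂ) = 0
    rw [hroot, mul_zero]
  have hV0 : evU (Units.mk0 _ hu0) (D.coeff 0 + (eta : RO ℤ) * D.coeff S) =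
      ((Units.mk0 _ hu0 : ℂˣ) : ℂ) ^ m * (cpz (q + X * f)).eval ((T⁻¹ : ℝ) : ℂ) := by
    have h1 : D.coeff 0 + (eta : RO ℤ) * D.coeff S =
        LaurentPolynomial.T m * toLaurent (q + X * f) := by
      rw [hq, hf, map_add, mul_add]
    rw [h1, map_mul, evU_toLaurent, evU_T]
    rfl
  rcases hNz ℤ P L phi D S i0 eta h c n G l b j e hj Q (fej sg k) S1 e1 hQ hQF hmut with
    h1 | h1 | h1
  · rw [h1] at hk0
    have h2 : (1 : RO ℤ).coeff 0 = 1 := AddMonoidAlgebra.coeff_one_zero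
    rw [h2] at hk0
    omega
  · have h2 := congrArg (evU (Units.mk0 _ hu0)) h1
    rw [map_mul, hD0, hV0, hxe] at h2
    exact hv _ ⟨x, hx, rfl⟩ h2.symm
  · have h2 := congrArg (evU (Units.mk0 _ hu0)) h1
    rw [map_mul, hD0, hV0, map_add, map_one, hxe] at h2
    exact hv _ ⟨1 + x, by linarith, by push_cast; ring⟩ h2.symm

/-- The big factor. -/
theorem big_factor (hCl : ClpS) (hE1 : E1S) (hG1 : G1pS) (hM : MmulS) (hMV : MVS) (hRk : RkS)
    (hFP : FP phi D) (fd : FD phi D S i0 eta h c n G) (hMc : M c = 1)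
    (hP' : ClassP θ' (D.coeff 0 + (eta : RO ℤ) * D.coeff S)) (hle : θ' + 1 ≤ θ)
    (hcard : (snp phi S i0 G).card = 1)
    (hrk : Module.finrank ℤ L = rk (supp (cl (co phi i0) S h eta D)) + 1) :
    LowG (Module.finrank ℤ L) θ := by
  classical
  obtain ⟨mm1, mm2, -⟩ := hM ℤ
  obtain ⟨mv1, mv2⟩ := hMV ℤ
  obtain ⟨-, e12⟩ := hE1 ℤ
  obtain ⟨-, hcl⟩ := hCl ℤ P L phi D S i0 eta h c n G hFP fd
  have hG0 : ∀ i, (G i).coeff 0 ≠ 0 := fun i => (fd.st i).1
  have hV := mv2 _ _ hP'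
  have hP2 : ClassP θ' (c * ∏ i, (G i).coeff 0) := by
    rw [← fd.v00]
    exact hP'
  have hθ' : 1 < θ' := hP'.1
  -- a big factor exists
  have hex : ∃ i, 1 < M ((G i).coeff 0) := by
    by_contra hcon
    have h1 : ∀ i, M ((G i).coeff 0) = 1 := by
      intro i
      refine le_antisymm ?_ (mm2 _)
      by_contra h2
      exact hcon ⟨i, not_le.mp h2⟩
    have h2 : ∀ s : Finset (Fin n), M (∏ i ∈ s, (G i).coeff 0) = 1 := by
      intro s
      induction s using Finset.induction_on with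
      | empty => rw [Finset.prod_empty]; exact (hM ℤ).2.2 1 isUnit_one
      | insert a s ha ih =>
        rw [Finset.prod_insert ha, mm1 _ _ (hG0 a) (Finset.prod_ne_zero_iff.mpr fun i _ => hG0 i),
          h1 a, ih, one_mul]
    have h3 := hV.2
    rw [fd.v00, mm1 _ _ fd.c0 (Finset.prod_ne_zero_iff.mpr fun i _ => hG0 i), hMc, h2 _,
      one_mul] at h3
    linarith
  obtain ⟨i, hi⟩ := hex
  -- the factor `i` has class `P`
  have hsplit : c * ∏ k, (G k).coeff 0 =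
      (G i).coeff 0 * (c * ∏ k ∈ Finset.univ.erase i, (G k).coeff 0) := by
    rw [← Finset.mul_prod_erase Finset.univ (fun k => (G k).coeff 0) (Finset.mem_univ i)]
    ring
  rw [hsplit] at hP2
  obtain ⟨hPi, hVr⟩ : ClassP θ' ((G i).coeff 0) ∧
      ClassV 1 (c * ∏ k ∈ Finset.univ.erase i, (G k).coeff 0) := by
    rcases e12 _ _ _ hP2 with h1 | ⟨h1, -⟩
    · exact h1
    · exfalso
      have h2 := (mv1 _ _ h1).2
      linarith
  have huni : ∀ k, 1 < M ((G k).coeff 0) → k = i := by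
    intro k hk
    by_contra hki
    have h1 := (mv1 _ _ hVr).2
    have h2 := H56.one_lt_prod hM (Finset.univ.erase i) (fun k => (G k).coeff 0) hG0 k
      (Finset.mem_erase.mpr ⟨hki, Finset.mem_univ _⟩) hk
    rw [mm1 _ _ fd.c0 (Finset.prod_ne_zero_iff.mpr fun i _ => hG0 i), hMc, one_mul] at h1
    linarith
  have hbig : big G = {i} := by
    ext k
    unfold big
    rw [Finset.mem_filter, Finset.mem_singleton]
    constructor
    · rintro ⟨-, hk⟩
      exact huni k hk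
    · rintro rfl
      exact ⟨Finset.mem_univ _, hi⟩
  -- ranks
  have h1 := hG1 ℤ P L phi D S i0 eta h c n G fd
    (fun k b _ hpure _ _ => absurd hpure (hcl k).1)
  rw [hbig, Finset.sum_singleton, hcard] at h1
  obtain ⟨-, K, hK, hKs, hKr, hKD⟩ := hcl i
  have hk0 : co phi i0 ≠ 0 := by
    intro h0
    have h2 := h
    rw [h0] at h2
    exact absurd h2 (by simp)
  have hker := (hRk L L).1 (co phi i0) hk0
  have hKle : Module.finrank ℤ K ≤ Module.finrank ℤ (Ker (co phi i0)) := by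
    rw [hKr]
    exact (hRk (Ker (co phi i0)) (Ker (co phi i0))).2.2.1 _
  refine ⟨θ', hle, P, K, inferInstance, inferInstance, inferInstance, inferInstance,
    inferInstance, (phO phi S i0).comp (incl K), res K (G i), hKD, ?_, ?_, ?_⟩
  · rw [res_coeff]
    exact hPi
  · rw [hKr]
    omega
  · omega

end

/-- Row SF_BIG. -/
theorem sf_big_st (hQs : QsgS) (hCz : CzaS) (hTz : TzaS) (hFj : FjtS) (hGa : GaiS) (hNz : NdzS)
    (hNd : Nd3S) (hNr : Nr3S) (hTa : Ta3S) (hUm : Um3S) (hSt : St3S) (hSw : Sw3S) (hCl : ClpS)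
    (hE1 : E1S) (hE2 : E2S) (hTr : Nr.TrezS) (hLd : LdzS) (hG1 : G1pS) (hM : MmulS) (hMV : MVS)
    (hRk : RkS) : BigzS := by
  classical
  intro P L _ _ _ _ _ phi D S i0 eta h c n G θ θ' m q f hFP fd _ hθ hP hq hf ld hf1 hMc hP' hsn
    hrk
  obtain ⟨T', s, W, c1⟩ := hCz q f ld
  obtain ⟨-, T, hT, hroot⟩ :=
    hLd P L phi D S eta θ m q f fd.cc.dd fd.cc.two fd.cc.ray hP hq ld.q0 hf
  have hV : D.coeff 0 + (eta : RO ℤ) * D.coeff S =
      LaurentPolynomial.T m * toLaurent (q + X * f) := by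
    rw [hq, hf, map_add, mul_add]
  have hP2 := hP'
  rw [hV] at hP2
  obtain ⟨hT'1, hT'θ⟩ := zero_data ld c1 hP2
  have hT1 : 1 < |T| := by
    rw [hT]
    linarith
  obtain ⟨t, ht1, ht2⟩ := hQs ℤ P L phi D S i0 eta h c n G fd hMc m (q + X * f) hV
    (no_double hNd ld c1 hT'1)
  have hMass : Mass (∑ l ∈ snp phi S i0 G, t l) q f := mass_of _ t hq hV ht2
  have hnn : ∀ l ∈ snp phi S i0 G, NnR (t l) := by
    intro l hl
    obtain ⟨-, -, -, -, -, -, -, -, -, -, -, h1⟩ := ht1 l hl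
    exact h1
  have hne : ∀ l ∈ snp phi S i0 G, t l ≠ 0 := by
    intro l hl
    obtain ⟨-, -, -, -, -, -, -, -, -, -, h1, -⟩ := ht1 l hl
    exact h1
  have hint : ∀ l ∈ snp phi S i0 G, 1 ≤ (t l).coeff 0 ∧ |(t l).coeff 1| ≤ (t l).coeff 0 - 1 :=
    fun l hl => nr_int hNr (hne l hl) (hnn l hl)
  have htt0 := sum_coeff (snp phi S i0 G) t 0
  have htt1 := sum_coeff (snp phi S i0 G) t 1
  have hcardle : ((snp phi S i0 G).card : ℤ) ≤ (∑ l ∈ snp phi S i0 G, t l).coeff 0 := by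
    rw [htt0]
    have h1 : ((snp phi S i0 G).card : ℤ) = ∑ _l ∈ snp phi S i0 G, (1 : ℤ) := by simp
    rw [h1]
    exact Finset.sum_le_sum fun l hl => (hint l hl).1
  have hcpos : 1 ≤ (snp phi S i0 G).card := hsn.card_pos
  have httne : (∑ l ∈ snp phi S i0 G, t l) ≠ 0 := by
    intro h0
    rw [h0] at hcardle
    have h1 : (0 : RO ℤ).coeff 0 = 0 := rfl
    rw [h1] at hcardle
    omega
  have httn : NnR (∑ l ∈ snp phi S i0 G, t l) := sum_nnR _ _ hnn
  rcases hTz _ q f T T' s W ld c1 hT1 hroot hT'1 hf1 httne httn hMass with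
    h1 | ⟨-, h2, hTT, sg, hsg, hsT', h3⟩
  · left
    have hc1 : (snp phi S i0 G).card = 1 := by
      rw [h1] at hcardle
      have h2 : (1 : RO ℤ).coeff 0 = 1 := AddMonoidAlgebra.coeff_one_zero
      rw [h2] at hcardle
      omega
    obtain ⟨l, hl⟩ := Finset.card_eq_one.mp hc1
    obtain ⟨b, j, e, hj, Q, F, hQ, hQF, hF, hFt, -, -⟩ := ht1 l (by rw [hl]; simp)
    rw [h1] at hMass
    rw [hl, Finset.sum_singleton] at h1
    exact mass_one hTa hUm hSt hSw hTr hE2 fd hθ hP hq hf ld hf1 hMass hQ hQF hF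
      (by rw [hFt, h1])
  · right
    have hc1 : (snp phi S i0 G).card = 1 := by
      have h4 : |(∑ l ∈ snp phi S i0 G, t l).coeff 1| ≤
          (∑ l ∈ snp phi S i0 G, t l).coeff 0 - (snp phi S i0 G).card := by
        rw [htt0, htt1]
        calc |∑ l ∈ snp phi S i0 G, (t l).coeff 1|
            ≤ ∑ l ∈ snp phi S i0 G, |(t l).coeff 1| := Finset.abs_sum_le_sum_abs _ _
          _ ≤ ∑ l ∈ snp phi S i0 G, ((t l).coeff 0 - 1) :=
              Finset.sum_le_sum fun l hl => (hint l hl).2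
          _ = _ := by rw [Finset.sum_sub_distrib]; simp
      have h5 : |(∑ l ∈ snp phi S i0 G, t l).coeff 1| =
          (∑ l ∈ snp phi S i0 G, t l).coeff 0 - 1 := by
        rw [h3, abs_mul, abs_of_nonneg (by omega : 0 ≤ (∑ l ∈ snp phi S i0 G, t l).coeff 0 - 1)]
        rcases hsg with rfl | rfl <;> simp
      rw [h5] at h4
      omega
    obtain ⟨l, hl⟩ := Finset.card_eq_one.mp hc1
    obtain ⟨b, j, e, hj, Q, F, hQ, hQF, hF, hFt, -, -⟩ := ht1 l (by rw [hl]; simp)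
    rw [hl, Finset.sum_singleton] at h2 h3 hMass
    obtain ⟨k, hk⟩ : ∃ k : ℕ, (t l).coeff 0 = k := ⟨((t l).coeff 0).toNat, by omega⟩
    have hk2 : 2 ≤ k := by omega
    have hFf : F = cst (fej sg k) := by
      apply hFj _ F k sg hF hk2 hsg
      · rw [hFt, hk]
      · rw [hFt, h3, hk]
    have htl : t l = fej sg k := by
      rw [← hFt, hFf, cst, AddMonoidAlgebra.coeff_single, Finsupp.single_eq_same]
    have hk0 : (fej sg k).coeff 0 = (k : ℤ) := by rw [← htl, hk]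
    rw [htl] at hMass
    have hgain := hGa q f T T' s W k sg ld c1 (by rw [hT]; exact hθ) hroot hT'1 hf1 hk2 hsg hsT'
      hMass
    have hsT : 0 < (sg : ℝ) * T := by
      have h4 := mul_pos hsT' hTT
      have h5 : (sg : ℝ) * T' * (T * T') = (sg * T) * T' ^ 2 := by ring
      rw [h5] at h4
      exact pos_of_mul_pos_left h4 (sq_nonneg _)
    have hnm := no_mutual hNz hq hf c1 hT1 hroot (by linarith) hsg hk2 hsT hQ
      (by rw [hQF, hFf, cst, cst, cst, AddMonoidAlgebra.single_mul_single, add_zero]) hk0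
    rcases hrk with hrk | hrk
    · exact big_factor hCl hE1 hG1 hM hMV hRk hFP fd hMc hP' (by rw [← hT'θ, ← hT]; exact hgain)
        hc1 hrk
    · exact absurd hrk hnm

end Pool.Agent.B5.SFH27
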