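import Pool.Agent.Lib.MP_b5021c_nt.IfaceSF
import Pool.Agent.Lib.MP_b5021c_nt.B.H96.E3Em
import Pool.Agent.Lib.MP_b5021c_nt.E.H56.T2o
import Pool.Agent.Lib.MP_b5021c_nt.E2.H80.Psz2

/-!
# Board b5, chapter SF, row SF_BIG: auxiliary facts
-/

namespace Pool.Agent.B5.SFH27

open scoped LaurentPolynomial
open Polynomial Pool.Agent.B5
open Pool.Agent.MP_b5021c_nt (nz)

/-! ## Integers -/

theorem emb_int (x : ℤ) : (Coef.emb x : ℂ) = (x : ℂ) := rfl

theorem norm_emb (x : ℤ) : ‖(Coef.emb x : ℂ)‖ = |(x : ℝ)| := by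
  rw [emb_int, Complex.norm_intCast]

theorem norm_emb_one {x : ℤ} (h : |x| = 1) : ‖(Coef.emb x : ℂ)‖ = 1 := by
  rw [norm_emb]
  exact_mod_cast h

theorem ne_of_abs_one {x : ℤ} (h : |x| = 1) : x ≠ 0 := by
  rintro rfl
  simp at h

/-- Coefficients of a nonnegative mass. -/
theorem nr_int (hNr : Nr3S) {t : RO ℤ} (h0 : t ≠ 0) (hn : NnR t) :
    1 ≤ t.coeff 0 ∧ |t.coeff 1| ≤ t.coeff 0 - 1 := by
  obtain ⟨-, h2, -⟩ := hNr ℤ t h0 hn
  obtain ⟨h3, -⟩ := h2 1 one_ne_zero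
  rw [norm_emb, emb_int, Complex.intCast_re] at h3
  have h4 : |t.coeff 1| < t.coeff 0 := by exact_mod_cast h3
  have h5 := abs_nonneg (t.coeff 1)
  constructor <;> omega

/-! ## The real zero of `q + X f` -/

theorem zero_data {q f : ℤ[X]} {T' θ' : ℝ} {s W : ℂ[X]} {m : ℤ} (ld : LDz q f)
    (c1 : C1D q f T' s W)
    (hP : ClassP θ' (LaurentPolynomial.T m * toLaurent (q + X * f) : RO ℤ)) :
    1 < |T'| ∧ |T'| = θ' := by
  obtain ⟨h1, n, v, hv, h0, w, hw, hr⟩ := hP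
  have e0 : (q + X * f).coeff 0 = q.coeff 0 := by
    rw [coeff_add, mul_coeff_zero, coeff_X_zero, zero_mul, add_zero]
  have e1 : (q + X * f).coeff 0 ≠ 0 := by
    rw [e0]
    exact ne_of_abs_one ld.q0
  have e2 : v.coeff 0 ≠ 0 := by
    intro h
    rw [h, map_zero, norm_zero] at h0
    exact zero_ne_one h0
  obtain ⟨-, rfl⟩ := H56.nf_unique m n _ v e1 e2 hv
  have hmem : w ∈ ((q + X * f).map (Coef.emb : ℤ →+* ℂ)).roots.filter (fun x => ‖x‖ < 1) := by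
    rw [hr]
    exact Multiset.mem_singleton_self w
  rw [Multiset.mem_filter] at hmem
  have h3 : ((q + X * f).map (Coef.emb : ℤ →+* ℂ)).eval w = 0 := (mem_roots'.mp hmem.1).2
  have h4 : (cpz (q + X * f)).eval w = 0 := h3
  rw [c1.v, eval_mul] at h4
  have h5 : (1 - C (T' : ℂ) * X : ℂ[X]).eval w = 0 :=
    (mul_eq_zero.mp h4).resolve_right (c1.zf w hmem.2)
  rw [eval_sub, eval_one, eval_mul, eval_C, eval_X] at h5
  have h6 : (T' : ℂ) * w = 1 := by linear_combination -h5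
  have h7 : |T'| * ‖w‖ = 1 := by
    rw [← Real.norm_eq_abs, ← Complex.norm_real, ← norm_mul, h6, norm_one]
  rw [hw] at h7
  have h8 : θ' ≠ 0 := by linarith
  have h9 : |T'| = θ' := by
    field_simp at h7
    exact h7
  exact ⟨by rw [h9]; exact h1, h9⟩

/-- The zero of `q + X f` in the disc. -/
theorem eval_zero {q f : ℤ[X]} {T' : ℝ} {s W : ℂ[X]} (c1 : C1D q f T' s W) (h : 1 < |T'|) :
    ‖((T'⁻¹ : ℝ) : ℂ)‖ < 1 ∧ (cpz (q + X * f)).eval ((T'⁻¹ : ℝ) : ℂ) = 0 := by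
  have h0 : T' ≠ 0 := by
    rintro rfl
    rw [abs_zero] at h
    linarith
  constructor
  · rw [Complex.norm_real, Real.norm_eq_abs, abs_inv]
    exact inv_lt_one_of_one_lt₀ h
  · rw [c1.v, eval_mul, eval_sub, eval_one, eval_mul, eval_C, eval_X]
    have h1 : (T' : ℂ) * ((T'⁻¹ : ℝ) : ℂ) = 1 := by
      rw [← Complex.ofReal_mul, mul_inv_cancel₀ h0, Complex.ofReal_one]
    rw [h1, sub_self, zero_mul]

/-- No double zero on the circle. -/
theorem no_double (hNd : Nd3S) {q f : ℤ[X]} {T' : ℝ} {s W : ℂ[X]} (ld : LDz q f)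
    (c1 : C1D q f T' s W) (h : 1 < |T'|) :
    ∀ z0 : ℂ, ‖z0‖ = 1 → ¬ (X - C z0) ^ 2 ∣ (q + X * f).map (Coef.emb : ℤ →+* ℂ) := by
  intro z0 hz0
  have hve : ∀ z : ℂ, (cpz (q + X * f)).eval z = (cpz q).eval z + z * (cpz f).eval z := by
    intro z
    rw [cpz, Polynomial.map_add, Polynomial.map_mul, Polynomial.map_X, eval_add, eval_mul, eval_X]
    rfl
  have hv0 : cpz (q + X * f) ≠ 0 := by
    rw [cpz, Ne, Polynomial.map_eq_zero_iff emb_inj]
    intro h0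
    have h1 := congrArg (fun p : ℤ[X] => p.coeff 0) h0
    simp only [coeff_add, mul_coeff_zero, coeff_X_zero, zero_mul, add_zero, coeff_zero] at h1
    exact ne_of_abs_one ld.q0 h1
  refine hNd (cpz q) (cpz (q + X * f)) z0 ld.nzq ld.qc ?_ hv0
    ⟨_, (eval_zero c1 h).1, (eval_zero c1 h).2⟩ hz0
  intro z hz
  rw [hve z, add_mul, Complex.add_re, Complex.mul_conj, Complex.normSq_eq_norm_sq,
    Complex.ofReal_re]
  have h1 := ld.le z hz
  have h2 := Complex.abs_re_le_norm (z * (cpz f).eval z * (starRingEnd ℂ) ((cpz q).eval z))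
  rw [norm_mul, norm_mul, hz, one_mul, Complex.norm_conj] at h2
  have h3 := (abs_le.mp h2).1
  have h4 := norm_nonneg ((cpz q).eval z)
  nlinarith

/-! ## Sums of masses -/

theorem sum_coeff {ι : Type} (s : Finset ι) (t : ι → RO ℤ) (k : ℤ) :
    (∑ l ∈ s, t l).coeff k = ∑ l ∈ s, (t l).coeff k := by
  classical
  induction s using Finset.induction_on with
  | empty => simp
  | insert a s ha ih =>
    rw [Finset.sum_insert ha, Finset.sum_insert ha, ← ih]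
    rfl

theorem sum_nnR {ι : Type} (s : Finset ι) (t : ι → RO ℤ) (h : ∀ l ∈ s, NnR (t l)) :
    NnR (∑ l ∈ s, t l) := by
  intro z
  rw [map_sum, Complex.im_sum, Complex.re_sum]
  exact ⟨Finset.sum_eq_zero fun l hl => (h l hl z).1, Finset.sum_nonneg fun l hl => (h l hl z).2⟩

/-- The mass inequality. -/
theorem mass_of {ι : Type} (s : Finset ι) (t : ι → RO ℤ) {q f : ℤ[X]} {m : ℤ}
    {D0 V0 : RO ℤ} (hq : D0 = LaurentPolynomial.T m * toLaurent q)
    (hV : V0 = LaurentPolynomial.T m * toLaurent (q + X * f))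
    (h : ∀ z : Circle, (∑ l ∈ s, (evR z (t l)).re) * ‖evR z V0‖ ^ 2 ≤
      2 * (evR z D0 * (starRingEnd ℂ) (evR z V0)).re - ‖evR z V0‖ ^ 2) :
    Mass (∑ l ∈ s, t l) q f := by
  intro z
  have h1 := h z
  rw [hq, hV, H96.ev_T_mul, H96.ev_T_mul, H96.circ_mul_conj, norm_mul, H96.norm_circle,
    one_mul] at h1
  rw [map_sum, Complex.re_sum]
  refine le_trans h1 (le_of_eq ?_)
  change 2 * ((cpz q).eval (z : ℂ) * (starRingEnd ℂ) ((cpz (q + X * f)).eval (z : ℂ))).re -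
    ‖(cpz (q + X * f)).eval (z : ℂ)‖ ^ 2 = _
  have h2 : (cpz (q - X * f)).eval (z : ℂ) =
      2 * (cpz q).eval (z : ℂ) - (cpz (q + X * f)).eval (z : ℂ) := by
    simp only [cpz, Polynomial.map_sub, Polynomial.map_add, eval_sub, eval_add]
    ring
  have h3 : (‖(cpz (q + X * f)).eval (z : ℂ)‖ ^ 2 : ℝ) =
      ((cpz (q + X * f)).eval (z : ℂ) * (starRingEnd ℂ) ((cpz (q + X * f)).eval (z : ℂ))).re := by
    rw [Complex.mul_conj, Complex.normSq_eq_norm_sq, Complex.ofReal_re]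
  have h4 : ∀ w : ℂ, (2 * w).re = 2 * w.re := by
    intro w
    rw [show (2 : ℂ) * w = ((2 : ℝ) : ℂ) * w by norm_num, Complex.re_ofReal_mul]
  rw [h2, sub_mul, Complex.sub_re, h3, mul_assoc, h4]

/-! ## Values at real points -/

/-- Evaluation at a unit of `ℂ`. -/
noncomputable def evU (u : ℂˣ) : RO ℤ →+* ℂ :=
  LaurentPolynomial.eval₂ (Coef.emb : ℤ →+* ℂ) u

theorem evU_toLaurent (u : ℂˣ) (p : ℤ[X]) : evU u (toLaurent p) = (cpz p).eval (u : ℂ) := by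
  rw [evU, LaurentPolynomial.eval₂_toLaurent, cpz, Polynomial.eval_map]

theorem evU_T (u : ℂˣ) (n : ℤ) : evU u (LaurentPolynomial.T n : RO ℤ) = (u : ℂ) ^ n := by
  rw [evU, LaurentPolynomial.eval₂_T, Units.val_zpow_eq_zpow_val]

theorem evU_C (u : ℂˣ) (x : ℤ) : evU u (LaurentPolynomial.C x : RO ℤ) = (x : ℂ) := by
  rw [evU, LaurentPolynomial.eval₂_C]
  rfl

/-- The Fejer kernel is positive at `a`, `sg a > 0`. -/
theorem fej_pos {sg : ℤ} (hsg : sg = 1 ∨ sg = -1) {a : ℝ} (ha : 0 < sg * a) {m : ℕ} (hm : 1 ≤ m)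
    (u : ℂˣ) (hu : (u : ℂ) = (a : ℂ)) : ∃ x : ℝ, 0 < x ∧ evU u (fej sg m) = (x : ℂ) := by
  have ha0 : a ≠ 0 := by
    rintro rfl
    rw [mul_zero] at ha
    exact lt_irrefl _ ha
  have hx : 0 < (sg * a)⁻¹ := inv_pos.mpr ha
  have hsq : (sg : ℝ) * sg = 1 := by
    rcases hsg with rfl | rfl <;> norm_num
  have hinv : ((sg : ℝ) * a)⁻¹ = sg * a⁻¹ := by
    rw [mul_inv]
    congr 1
    rcases hsg with rfl | rfl <;> norm_num
  have hne : (Finset.range m).Nonempty := ⟨0, Finset.mem_range.mpr (by omega)⟩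
  refine ⟨(∑ k ∈ Finset.range m, ((sg : ℝ) * a) ^ k) * ∑ k ∈ Finset.range m,
    (((sg : ℝ) * a)⁻¹) ^ k, mul_pos (Finset.sum_pos (fun k _ => pow_pos ha k) hne)
      (Finset.sum_pos (fun k _ => pow_pos hx k) hne), ?_⟩
  rw [fej, map_mul, map_sum, map_sum, Complex.ofReal_mul, Complex.ofReal_sum, Complex.ofReal_sum]
  congr 1
  · refine Finset.sum_congr rfl fun k _ => ?_
    rw [map_mul, evU_C, evU_T, hu]
    push_cast
    rw [zpow_natCast, mul_pow]
  · refine Finset.sum_congr rfl fun k _ => ?_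
    rw [map_mul, evU_C, evU_T, hu, hinv]
    push_cast
    rw [zpow_neg, zpow_natCast, mul_pow, inv_pow]

end Pool.Agent.B5.SFH27
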